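import Pool.Agent.X170.Img.Main

/-!
# The local form of Furstenberg's conjecture
-/

set_option autoImplicit false

open MeasureTheory Filter Topology Set

namespace Pool.Agent.X170.Img

/-- an atomless, jointly ergodic, `×p, ×q` invariant probability measure -/
def Adm (p q : ℕ) (μ : Measure UnitAddCircle) : Prop :=
  IsProbabilityMeasure μ ∧ (∀ x, μ {x} = 0) ∧ Inv p q μ ∧ Jerg p q μ

lemma Adm.cx {p q : ℕ} {μ : Measure UnitAddCircle} (h : Adm p q μ) (hne : μ ≠ volume) :
    Cx p q μ := ⟨h.1, h.2.1, h.2.2.1, h.2.2.2, hne⟩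

lemma Cx.adm {p q : ℕ} {μ : Measure UnitAddCircle} (h : Cx p q μ) : Adm p q μ :=
  ⟨h.1, h.2.1, h.2.2.1, h.2.2.2.1⟩

lemma four_lim {ν : ℕ → Measure UnitAddCircle} (hν : ∀ k, IsProbabilityMeasure (ν k))
    (h : ∀ f : C(UnitAddCircle, ℝ), Tendsto (fun k : ℕ => ∫ x, f x ∂(ν k)) atTop
      (𝓝 (∫ x, f x))) {m : ℤ} (hm : m ≠ 0) :
    Tendsto (fun k : ℕ => ‖∫ x, (fourier m x : ℂ) ∂(ν k)‖) atTop (𝓝 0) := by
  have hv := vol_prob
  have hint : ∀ μ : Measure UnitAddCircle, IsProbabilityMeasure μ →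
      Integrable (fun x : UnitAddCircle => (fourier m x : ℂ)) μ := fun μ _ =>
    (map_continuous (fourier m)).integrable_of_hasCompactSupport
      (HasCompactSupport.of_compactSpace _)
  have h1 := h ⟨fun x => ((fourier m x : ℂ)).re, Complex.continuous_re.comp (map_continuous _)⟩
  have h2 := h ⟨fun x => ((fourier m x : ℂ)).im, Complex.continuous_im.comp (map_continuous _)⟩
  have e : ∀ μ : Measure UnitAddCircle, IsProbabilityMeasure μ →
      ∫ x, (fourier m x : ℂ) ∂μ = ((∫ x, ((fourier m x : ℂ)).re ∂μ : ℝ) : ℂ) +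
        ((∫ x, ((fourier m x : ℂ)).im ∂μ : ℝ) : ℂ) * Complex.I := by
    intro μ hμ
    have a : ∫ x, ((fourier m x : ℂ)).re ∂μ = (∫ x, (fourier m x : ℂ) ∂μ).re :=
      integral_re (hint μ hμ)
    have b : ∫ x, ((fourier m x : ℂ)).im ∂μ = (∫ x, (fourier m x : ℂ) ∂μ).im :=
      integral_im (hint μ hμ)
    rw [a, b, Complex.re_add_im]
  have h3 : Tendsto (fun k : ℕ => ∫ x, (fourier m x : ℂ) ∂(ν k)) atTop
      (𝓝 (∫ x : UnitAddCircle, (fourier m x : ℂ))) := by
    rw [e volume hv]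
    simp only [fun k => e (ν k) (hν k)]
    exact ((Complex.continuous_ofReal.tendsto _).comp h1).add
      (((Complex.continuous_ofReal.tendsto _).comp h2).mul_const Complex.I)
  have h4 : ∫ x : UnitAddCircle, (fourier m x : ℂ) = 0 :=
    Pool.Agent.H847R3.XpXq.integral_fourier_zero hm
  rw [h4] at h3
  simpa using h3.norm

theorem tfae {p q : ℕ} (hp : 2 ≤ p) (hq : 2 ≤ q) :
    List.TFAE [
      ∀ μ : Measure UnitAddCircle, Adm p q μ → μ = volume,
      {μ : Measure UnitAddCircle | Adm p q μ}.Finite,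
      ∃ (N : ℕ) (ε : ℝ), 0 < ε ∧ ∀ μ : Measure UnitAddCircle, Adm p q μ →
        (∀ m : ℤ, m ≠ 0 → |m| ≤ N → ‖∫ x, (fourier m x : ℂ) ∂μ‖ ≤ ε) → μ = volume] := by
  have hv := vol_prob
  tfae_have 1 → 2 := by
    intro h
    exact (Set.finite_singleton (volume : Measure UnitAddCircle)).subset fun μ hμ => h μ hμ
  tfae_have 1 → 3 := fun h => ⟨0, 1, one_pos, fun μ hμ _ => h μ hμ⟩
  tfae_have 2 → 1 := by
    intro hfin μ hμ
    by_contra hne
    obtain ⟨c, -, hc1, hpw, -⟩ := sequence hp hq (hμ.cx hne)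
    have hcx := fun k => (hμ.cx hne).map hp hq (hc1 k)
    have hinj : Function.Injective fun k => μ.map fun x => c k • x := by
      intro i j hij
      by_contra hne'
      have h1 : μ.map (fun x => c i • x) ⟂ₘ μ.map (fun x => c j • x) := hpw hne'
      have h2 : μ.map (fun x => c i • x) = μ.map fun x => c j • x := hij
      rw [h2] at h1
      have h3 := (Measure.MutuallySingular.self_iff _).1 h1
      have h4 := (hcx j).1
      have h5 : (μ.map fun x => c j • x) univ = 1 := measure_univ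
      rw [h3] at h5
      simp at h5
    exact (Set.infinite_of_injective_forall_mem hinj fun k => (hcx k).adm) hfin
  tfae_have 3 → 1 := by
    rintro ⟨N, ε, hε, h⟩ μ hμ
    by_contra hne
    obtain ⟨c, -, hc1, -, hlim⟩ := sequence hp hq (hμ.cx hne)
    have hcx := fun k => (hμ.cx hne).map hp hq (hc1 k)
    have hev : ∀ᶠ k in atTop, ∀ m ∈ (Finset.Icc (-(N : ℤ)) N).filter (· ≠ 0),
        ‖∫ x, (fourier m x : ℂ) ∂(μ.map fun x => c k • x)‖ ≤ ε := by
      rw [Filter.eventually_all_finset]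
      intro m hm
      rw [Finset.mem_filter] at hm
      exact (four_lim (fun k => (hcx k).1) hlim hm.2).eventually_le_const hε
    obtain ⟨k, hk⟩ := hev.exists
    refine (hcx k).2.2.2.2 (h _ (hcx k).adm fun m hm0 hmN => hk m ?_)
    rw [Finset.mem_filter, Finset.mem_Icc]
    exact ⟨abs_le.1 hmN, hm0⟩
  tfae_finish

end Pool.Agent.X170.Img
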