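import Mathlib

/-!
# Jointly ergodic measures for `×p` and `×q`: equal or mutually singular
-/

set_option autoImplicit false

open MeasureTheory Filter Topology Set

namespace Pool.Agent.X170.Img

/-- no nontrivial set is invariant under both `×p` and `×q` -/
def Jerg (p q : ℕ) (μ : Measure UnitAddCircle) : Prop :=
  ∀ E : Set UnitAddCircle, MeasurableSet E → (fun x : UnitAddCircle => p • x) ⁻¹' E = E →
    (fun x : UnitAddCircle => q • x) ⁻¹' E = E → μ E = 0 ∨ μ E = 1

/-- invariance under `×p` and `×q` -/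
def Inv (p q : ℕ) (μ : Measure UnitAddCircle) : Prop :=
  MeasurePreserving (fun x : UnitAddCircle => p • x) μ μ ∧
    MeasurePreserving (fun x : UnitAddCircle => q • x) μ μ

lemma meas_smul (n : ℕ) : Measurable (fun x : UnitAddCircle => n • x) :=
  (continuous_nsmul n).measurable

lemma mp_pow {μ : Measure UnitAddCircle} {p : ℕ}
    (h : MeasurePreserving (fun x : UnitAddCircle => p • x) μ μ) (i : ℕ) :
    MeasurePreserving (fun x : UnitAddCircle => (p ^ i) • x) μ μ := by
  induction i with
  | zero =>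
    simp only [pow_zero, one_smul]
    exact MeasurePreserving.id μ
  | succ i ih =>
    have := h.comp ih
    have e : (fun x : UnitAddCircle => p • x) ∘ (fun x => (p ^ i) • x) =
        fun x => (p ^ (i + 1)) • x := by
      funext x
      simp only [Function.comp]
      rw [smul_smul, pow_succ']
    rwa [e] at this

lemma mp_pq {μ : Measure UnitAddCircle} {p q : ℕ} (h : Inv p q μ) (i j : ℕ) :
    MeasurePreserving (fun x : UnitAddCircle => (p ^ i * q ^ j) • x) μ μ := by
  have := (mp_pow h.1 i).comp (mp_pow h.2 j)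
  have e : (fun x : UnitAddCircle => (p ^ i) • x) ∘ (fun x => (q ^ j) • x) =
      fun x => (p ^ i * q ^ j) • x := by
    funext x
    simp only [Function.comp]
    rw [smul_smul]
  rwa [e] at this

/-- joint ergodicity for sets which are invariant up to null sets -/
lemma Jerg.ae {p q : ℕ} {μ : Measure UnitAddCircle} (hi : Inv p q μ) (h : Jerg p q μ)
    {E : Set UnitAddCircle} (hE : MeasurableSet E) (hp : ∀ᵐ x ∂μ, (p • x ∈ E ↔ x ∈ E))
    (hq : ∀ᵐ x ∂μ, (q • x ∈ E ↔ x ∈ E)) : μ E = 0 ∨ μ E = 1 := by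
  set E' : Set UnitAddCircle := {x | ∃ N : ℕ, ∀ i, N ≤ i → ∀ j, N ≤ j → (p ^ i * q ^ j) • x ∈ E}
    with hE'
  have hm : MeasurableSet E' := by
    have : E' = ⋃ N : ℕ, ⋂ i : ℕ, ⋂ _ : N ≤ i, ⋂ j : ℕ, ⋂ _ : N ≤ j,
        (fun x : UnitAddCircle => (p ^ i * q ^ j) • x) ⁻¹' E := by
      ext x
      simp [hE']
    rw [this]
    exact MeasurableSet.iUnion fun N => MeasurableSet.iInter fun i => MeasurableSet.iInter fun _ =>
      MeasurableSet.iInter fun j => MeasurableSet.iInter fun _ => meas_smul _ hE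
  have e1 : ∀ i j (x : UnitAddCircle), (p ^ i * q ^ j) • p • x = (p ^ (i + 1) * q ^ j) • x := by
    intro i j x
    rw [smul_smul]
    congr 1
    ring
  have e2 : ∀ i j (x : UnitAddCircle), (p ^ i * q ^ j) • q • x = (p ^ i * q ^ (j + 1)) • x := by
    intro i j x
    rw [smul_smul]
    congr 1
    ring
  have i1 : (fun x : UnitAddCircle => p • x) ⁻¹' E' = E' := by
    ext x
    simp only [hE', mem_preimage, mem_ofPred_eq, e1]
    constructor
    · rintro ⟨N, hN⟩
      refine ⟨N + 1, fun i hi j hj => ?_⟩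
      obtain ⟨i, rfl⟩ : ∃ k, i = k + 1 := ⟨i - 1, by omega⟩
      exact hN i (by omega) j (by omega)
    · rintro ⟨N, hN⟩
      exact ⟨N, fun i hi j hj => hN (i + 1) (by omega) j hj⟩
  have i2 : (fun x : UnitAddCircle => q • x) ⁻¹' E' = E' := by
    ext x
    simp only [hE', mem_preimage, mem_ofPred_eq, e2]
    constructor
    · rintro ⟨N, hN⟩
      refine ⟨N + 1, fun i hi j hj => ?_⟩
      obtain ⟨j, rfl⟩ : ∃ k, j = k + 1 := ⟨j - 1, by omega⟩
      exact hN i (by omega) j (by omega)
    · rintro ⟨N, hN⟩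
      exact ⟨N, fun i hi j hj => hN i hi (j + 1) (by omega)⟩
  have a1 : ∀ᵐ x ∂μ, ∀ i j : ℕ, (p • (p ^ i * q ^ j) • x ∈ E ↔ (p ^ i * q ^ j) • x ∈ E) ∧
      (q • (p ^ i * q ^ j) • x ∈ E ↔ (p ^ i * q ^ j) • x ∈ E) := by
    rw [ae_all_iff]
    intro i
    rw [ae_all_iff]
    intro j
    have h1 := (mp_pq hi i j).quasiMeasurePreserving.ae hp
    have h2 := (mp_pq hi i j).quasiMeasurePreserving.ae hq
    filter_upwards [h1, h2] with x hx1 hx2
    exact ⟨hx1, hx2⟩
  have a2 : ∀ᵐ x ∂μ, (x ∈ E' ↔ x ∈ E) := by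
    filter_upwards [a1] with x hx
    have h0 : ∀ j : ℕ, q ^ j • x ∈ E ↔ x ∈ E := by
      intro j
      induction j with
      | zero => simp
      | succ j ih =>
        have := (hx 0 j).2
        rw [pow_zero, one_mul] at this
        rw [pow_succ', mul_smul, this, ih]
    have h1 : ∀ i j : ℕ, (p ^ i * q ^ j) • x ∈ E ↔ x ∈ E := by
      intro i j
      induction i with
      | zero => rw [pow_zero, one_mul]; exact h0 j
      | succ i ih => rw [pow_succ', mul_assoc, mul_smul, (hx i j).1, ih]
    constructor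
    · rintro ⟨N, hN⟩
      exact (h1 N N).1 (hN N le_rfl N le_rfl)
    · intro hxE
      exact ⟨0, fun i _ j _ => (h1 i j).2 hxE⟩
  have a3 : μ E' = μ E := by
    apply measure_congr
    filter_upwards [a2] with x hx
    exact propext hx
  rw [← a3]
  exact h E' hm i1 i2

/-- the density of an invariant measure is invariant -/
lemma rn_inv {p : ℕ} {μ ν : Measure UnitAddCircle} [IsFiniteMeasure μ] [IsFiniteMeasure ν]
    (hμ : MeasurePreserving (fun x : UnitAddCircle => p • x) μ μ)
    (hν : MeasurePreserving (fun x : UnitAddCircle => p • x) ν ν) :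
    ∀ᵐ x ∂ν, μ.rnDeriv ν (p • x) = μ.rnDeriv ν x :=
  MeasureTheory.MeasurePreserving.rnDeriv_comp_aeEq hμ hν

lemma ac_of_not_sing {p q : ℕ} {μ ν : Measure UnitAddCircle} [IsProbabilityMeasure μ]
    [IsProbabilityMeasure ν] (hμ : Inv p q μ) (hν : Inv p q ν) (eν : Jerg p q ν)
    (hs : ¬ μ ⟂ₘ ν) : ν ≪ μ := by
  have hld : μ.HaveLebesgueDecomposition ν := Measure.haveLebesgueDecomposition_of_finiteMeasure
  set f := μ.rnDeriv ν with hf
  have hfm : Measurable f := Measure.measurable_rnDeriv μ ν
  set E : Set UnitAddCircle := {x | f x = 0} with hE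
  have hEm : MeasurableSet E := hfm (measurableSet_singleton 0)
  have h1 : ν E = 0 ∨ ν E = 1 := by
    refine eν.ae hν hEm ?_ ?_
    · filter_upwards [rn_inv hμ.1 hν.1] with x hx
      change f (p • x) = 0 ↔ f x = 0
      rw [hf, hx]
    · filter_upwards [rn_inv hμ.2 hν.2] with x hx
      change f (q • x) = 0 ↔ f x = 0
      rw [hf, hx]
  rcases h1 with h1 | h1
  · have h2 : ν ≪ ν.withDensity f := by
      refine withDensity_absolutelyContinuous' hfm.aemeasurable ?_
      rw [ae_iff]
      simpa using h1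
    exact h2.trans (Measure.absolutelyContinuous_of_le (Measure.withDensity_rnDeriv_le μ ν))
  · exfalso
    apply hs
    rw [← Measure.rnDeriv_eq_zero]
    have : ν Eᶜ = 0 := (prob_compl_eq_zero_iff hEm).2 h1
    exact this

/-- **Equal or mutually singular.** -/
theorem eq_or_sing {p q : ℕ} {μ ν : Measure UnitAddCircle} [IsProbabilityMeasure μ]
    [IsProbabilityMeasure ν] (hμ : Inv p q μ) (hν : Inv p q ν) (eμ : Jerg p q μ)
    (eν : Jerg p q ν) : μ = ν ∨ μ ⟂ₘ ν := by
  by_cases hs : μ ⟂ₘ ν
  · exact Or.inr hs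
  left
  have hld : μ.HaveLebesgueDecomposition ν := Measure.haveLebesgueDecomposition_of_finiteMeasure
  have h1 : μ ≪ ν := ac_of_not_sing hν hμ eμ fun h => hs h.symm
  set f := μ.rnDeriv ν with hf
  have hfm : Measurable f := Measure.measurable_rnDeriv μ ν
  have hw : ν.withDensity f = μ := Measure.withDensity_rnDeriv_eq μ ν h1
  have hint : ∫⁻ x, f x ∂ν = 1 := by
    have : ν.withDensity f univ = 1 := by rw [hw]; exact measure_univ
    rwa [withDensity_apply _ MeasurableSet.univ, Measure.restrict_univ] at this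
  have key : ∀ P : ENNReal → Prop, MeasurableSet {t | P t} →
      ν {x | P (f x)} = 0 ∨ ν {x | P (f x)} = 1 := by
    intro P hP
    refine eν.ae hν (hfm hP) ?_ ?_
    · filter_upwards [rn_inv hμ.1 hν.1] with x hx
      change P (f (p • x)) ↔ P (f x)
      rw [hf, hx]
    · filter_upwards [rn_inv hμ.2 hν.2] with x hx
      change P (f (q • x)) ↔ P (f x)
      rw [hf, hx]
  have hlt : ν {x | f x < 1} = 0 := by
    rcases key (fun t => t < 1) measurableSet_Iio with h | h
    · exact h
    · exfalso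
      have hm : MeasurableSet {x | f x < 1} := hfm measurableSet_Iio
      have h2 : ∀ᵐ x ∂ν, f x < 1 := by
        have := (prob_compl_eq_zero_iff hm).2 h
        exact this
      have h3 := lintegral_strict_mono (μ := ν) (IsProbabilityMeasure.ne_zero ν)
        (measurable_const (a := (1 : ENNReal))).aemeasurable
        (by rw [hint]; exact ENNReal.one_ne_top) h2
      rw [hint] at h3
      simp at h3
  have hgt : ν {x | 1 < f x} = 0 := by
    rcases key (fun t => 1 < t) measurableSet_Ioi with h | h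
    · exact h
    · exfalso
      have hm : MeasurableSet {x | 1 < f x} := hfm measurableSet_Ioi
      have h2 : ∀ᵐ x ∂ν, 1 < f x := by
        have := (prob_compl_eq_zero_iff hm).2 h
        exact this
      have h3 := lintegral_strict_mono (μ := ν) (IsProbabilityMeasure.ne_zero ν)
        hfm.aemeasurable (by simp) h2
      rw [hint] at h3
      simp at h3
  have hone : f =ᵐ[ν] fun _ => 1 := by
    have h2 : ∀ᵐ x ∂ν, ¬ f x < 1 := by rw [ae_iff]; simpa using hlt
    have h3 : ∀ᵐ x ∂ν, ¬ 1 < f x := by rw [ae_iff]; simpa using hgt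
    filter_upwards [h2, h3] with x hx1 hx2
    exact le_antisymm (not_lt.1 hx2) (not_lt.1 hx1)
  rw [← hw, withDensity_congr_ae hone]
  exact withDensity_one

lemma vol_inv {p q : ℕ} (hp : 2 ≤ p) (hq : 2 ≤ q) :
    Inv p q (volume : Measure UnitAddCircle) :=
  ⟨(AddCircle.ergodic_nsmul (by omega)).toMeasurePreserving,
    (AddCircle.ergodic_nsmul (by omega)).toMeasurePreserving⟩

lemma vol_prob : IsProbabilityMeasure (volume : Measure UnitAddCircle) :=
  ⟨UnitAddCircle.measure_univ⟩

lemma vol_erg {p q : ℕ} (hp : 2 ≤ p) : Jerg p q (volume : Measure UnitAddCircle) := by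
  intro E hE h1 _
  have he : Ergodic (fun x : UnitAddCircle => p • x) volume :=
    AddCircle.ergodic_nsmul (by omega)
  rcases Filter.eventuallyConst_set'.1 (he.aeconst_set hE h1) with h | h
  · left
    rw [measure_congr h, measure_empty]
  · right
    rw [measure_congr h]
    exact UnitAddCircle.measure_univ

end Pool.Agent.X170.Img
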