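import Pool.Agent.X170.Img.Erg
import Pool.Agent.TH463.UQ.Univ
import Pool.Agent.H847R3.XpXqE

/-!
# The images of a counterexample under the multiplications
-/

set_option autoImplicit false

open MeasureTheory Filter Topology Set

namespace Pool.Agent.X170.Img

/-- an atomless, jointly ergodic, `×p, ×q` invariant probability measure which is not Lebesgue -/
def Cx (p q : ℕ) (μ : Measure UnitAddCircle) : Prop :=
  IsProbabilityMeasure μ ∧ (∀ x, μ {x} = 0) ∧ Inv p q μ ∧ Jerg p q μ ∧ μ ≠ volume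

lemma Cx.sing {p q : ℕ} (hp : 2 ≤ p) (hq : 2 ≤ q) {μ : Measure UnitAddCircle}
    (h : Cx p q μ) : μ ⟂ₘ (volume : Measure UnitAddCircle) := by
  obtain ⟨h1, h2, h3, h4, h5⟩ := h
  have := vol_prob
  rcases eq_or_sing h3 (vol_inv hp hq) h4 (vol_erg hp) with h | h
  · exact absurd h h5
  · exact h

lemma finite_fibre {n : ℕ} (hn : 1 ≤ n) (x : UnitAddCircle) :
    {y : UnitAddCircle | n • y = x}.Finite := by
  rcases Set.eq_empty_or_nonempty {y : UnitAddCircle | n • y = x} with h | ⟨y0, hy0⟩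
  · rw [h]; exact Set.finite_empty
  · have hf := AddCircle.finite_torsion (1 : ℝ) (n := n) hn
    refine (hf.image fun u => y0 + u).subset ?_
    intro y hy
    refine ⟨y - y0, ?_, add_sub_cancel y0 y⟩
    change n • (y - y0) = 0
    have h1 : n • y = x := hy
    have h2 : n • y0 = x := hy0
    rw [nsmul_sub, h1, h2, sub_self]

lemma Cx.map {p q : ℕ} (hp : 2 ≤ p) (hq : 2 ≤ q) {μ : Measure UnitAddCircle}
    (h : Cx p q μ) {n : ℕ} (hn : 1 ≤ n) : Cx p q (μ.map fun x => n • x) := by
  have hs := h.sing hp hq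
  obtain ⟨h1, h2, h3, h4, h5⟩ := h
  have hm := meas_smul n
  have hcomm : ∀ s : ℕ, MeasurePreserving (fun x : UnitAddCircle => s • x) μ μ →
      MeasurePreserving (fun x : UnitAddCircle => s • x) (μ.map fun x => n • x)
        (μ.map fun x => n • x) := by
    intro s hs
    refine ⟨meas_smul s, ?_⟩
    rw [Measure.map_map (meas_smul s) hm]
    have e : ((fun x : UnitAddCircle => s • x) ∘ fun x : UnitAddCircle => n • x) =
        (fun x : UnitAddCircle => n • x) ∘ fun x => s • x := by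
      funext x
      simp only [Function.comp]
      exact smul_comm _ _ _
    rw [e, ← Measure.map_map hm (meas_smul s), hs.map_eq]
  refine ⟨Measure.isProbabilityMeasure_map hm.aemeasurable, ?_, ⟨hcomm p h3.1, hcomm q h3.2⟩, ?_, ?_⟩
  · intro x
    rw [Measure.map_apply hm (measurableSet_singleton x)]
    have hf : ((fun y : UnitAddCircle => n • y) ⁻¹' {x}).Finite := finite_fibre hn x
    rw [← Set.biUnion_of_singleton ((fun y : UnitAddCircle => n • y) ⁻¹' {x})]
    exact (measure_biUnion_null_iff hf.countable).2 fun y _ => h2 y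
  · intro E hE e1 e2
    rw [Measure.map_apply hm hE]
    have hc : ∀ s : ℕ, (fun x : UnitAddCircle => s • x) ⁻¹' E = E →
        (fun x : UnitAddCircle => s • x) ⁻¹' ((fun x : UnitAddCircle => n • x) ⁻¹' E) =
          (fun x : UnitAddCircle => n • x) ⁻¹' E := by
      intro s e
      ext x
      simp only [mem_preimage]
      rw [smul_comm]
      exact Set.ext_iff.1 e (n • x)
    exact h4 _ (hm hE) (hc p e1) (hc q e2)
  · intro he
    have h6 := Pool.Agent.H847R3.XpXq.sing_map (a := (n : ℤ)) (by exact_mod_cast (by omega : n ≠ 0))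
      hs
    have e : (fun x : UnitAddCircle => (n : ℤ) • x) = fun x => n • x := by
      funext x
      exact natCast_zsmul x n
    have h7 : μ.map (fun x : UnitAddCircle => n • x) ⟂ₘ (volume : Measure UnitAddCircle) := by
      rw [← e]
      exact h6
    rw [he] at h7
    have h8 := (Measure.MutuallySingular.self_iff _).1 h7
    have h9 : (volume : Measure UnitAddCircle) univ = 1 := UnitAddCircle.measure_univ
    rw [h8] at h9
    simp at h9

/-- only finitely many elements of a universal set give the same image -/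
lemma finite_same {p q : ℕ} (hp : 2 ≤ p) (hq : 2 ≤ q) {μ : Measure UnitAddCircle}
    (h : Cx p q μ) {C : Set ℕ}
    (hC : ∀ f : C(UnitAddCircle, ℝ), Tendsto (fun c : ℕ => ∫ x, f (c • x) ∂μ) (atTop ⊓ 𝓟 C)
      (𝓝 (∫ x, f x))) {ν : Measure UnitAddCircle} [IsFiniteMeasure ν] (hν : ν ≠ volume) :
    (C ∩ {c : ℕ | μ.map (fun x => c • x) = ν}).Finite := by
  by_contra hinf
  have hinf' : (C ∩ {c : ℕ | μ.map (fun x => c • x) = ν}).Infinite := hinf
  set S := C ∩ {c : ℕ | μ.map (fun x => c • x) = ν} with hS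
  have hb : (atTop ⊓ 𝓟 S : Filter ℕ).NeBot := by
    rw [← Filter.frequently_mem_iff_neBot]
    exact Nat.frequently_atTop_iff_infinite.2 hinf'
  apply hν
  have hv := vol_prob
  apply ext_of_forall_integral_eq_of_IsFiniteMeasure
  intro f
  have h1 := (hC f.toContinuousMap).mono_left
    (inf_le_inf_left atTop (principal_mono.2 (inter_subset_left (s := C)
      (t := {c : ℕ | μ.map (fun x => c • x) = ν}))))
  have h2 : Tendsto (fun c : ℕ => ∫ x, f.toContinuousMap (c • x) ∂μ) (atTop ⊓ 𝓟 S)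
      (𝓝 (∫ x, f x ∂ν)) := by
    refine (tendsto_const_nhds (x := ∫ x, f x ∂ν)).congr' ?_
    have h4 : ∀ᶠ c : ℕ in atTop ⊓ 𝓟 S, c ∈ S :=
      eventually_inf_principal.2 (Eventually.of_forall fun _ h => h)
    filter_upwards [h4] with c hc
    have h5 : μ.map (fun x => c • x) = ν := hc.2
    rw [← h5, integral_map (meas_smul c).aemeasurable f.continuous.aestronglyMeasurable]
    rfl
  exact tendsto_nhds_unique h2 h1

/-- the density of the set of the multipliers with a given image is zero -/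
lemma density {p q : ℕ} (hp : 2 ≤ p) (hq : 2 ≤ q) {μ : Measure UnitAddCircle}
    (h : Cx p q μ) {ν : Measure UnitAddCircle} [IsFiniteMeasure ν] (hν : ν ≠ volume) :
    Tendsto (fun N : ℕ => (Nat.card {c : ℕ | c < N ∧ μ.map (fun x => c • x) = ν} : ℝ) / N)
      atTop (𝓝 0) := by
  have h' := h
  obtain ⟨h1, h2, h3, h4, h5⟩ := h'
  rw [Metric.tendsto_atTop]
  intro ε hε
  obtain ⟨C, hC1, hC2⟩ := TH463.UQ.main (η := ε / 2) (by positivity)
  have hC3 := (hC2 p hp μ h1 h3.1 h2).1
  have hfin := finite_same hp hq h hC3 hν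
  set K := (C ∩ {c : ℕ | μ.map (fun x => c • x) = ν}).ncard with hK
  obtain ⟨N0, hN0⟩ := exists_nat_gt (2 * (K : ℝ) / ε)
  refine ⟨N0 + 1, fun N hN => ?_⟩
  have hNpos : (0 : ℝ) < N := by
    have : 0 < N := by omega
    exact_mod_cast this
  have hle : (Nat.card {c : ℕ | c < N ∧ μ.map (fun x => c • x) = ν} : ℝ) ≤ ε / 2 * N + K := by
    have hsub : {c : ℕ | c < N ∧ μ.map (fun x => c • x) = ν} ⊆
        {c : ℕ | c < N ∧ c ∉ C} ∪ (C ∩ {c : ℕ | μ.map (fun x => c • x) = ν}) := by
      rintro c ⟨hc1, hc2⟩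
      by_cases hc : c ∈ C
      · exact Or.inr ⟨hc, hc2⟩
      · exact Or.inl ⟨hc1, hc⟩
    have hf1 : {c : ℕ | c < N ∧ c ∉ C}.Finite := (Set.finite_lt_nat N).subset fun c hc => hc.1
    have h6 := Set.ncard_le_ncard hsub (hf1.union hfin)
    have h7 := Set.ncard_union_le {c : ℕ | c < N ∧ c ∉ C}
      (C ∩ {c : ℕ | μ.map (fun x => c • x) = ν})
    have h8 := hC1 N
    rw [Nat.card_coe_set_eq] at h8 ⊢
    have h9 : ({c : ℕ | c < N ∧ μ.map (fun x => c • x) = ν}.ncard : ℝ) ≤
        ({c : ℕ | c < N ∧ c ∉ C}.ncard : ℝ) + K := by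
      exact_mod_cast h6.trans h7
    linarith
  have hge : (N0 : ℝ) + 1 ≤ N := by exact_mod_cast hN
  rw [dist_zero_right, Real.norm_of_nonneg (by positivity), div_lt_iff₀ hNpos]
  have h10 : (K : ℝ) < ε / 2 * N := by
    rw [div_lt_iff₀ hε] at hN0
    nlinarith
  linarith

/-- **From one counterexample to a sequence converging to Lebesgue measure.** -/
theorem sequence {p q : ℕ} (hp : 2 ≤ p) (hq : 2 ≤ q) {μ : Measure UnitAddCircle}
    (h : Cx p q μ) : ∃ c : ℕ → ℕ, Tendsto c atTop atTop ∧ (∀ k, 1 ≤ c k) ∧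
      Pairwise (fun i j => μ.map (fun x => c i • x) ⟂ₘ μ.map (fun x => c j • x)) ∧
      ∀ f : C(UnitAddCircle, ℝ), Tendsto (fun k : ℕ => ∫ x, f x ∂(μ.map fun x => c k • x)) atTop
        (𝓝 (∫ x, f x)) := by
  have h' := h
  obtain ⟨h1, h2, h3, h4, h5⟩ := h'
  obtain ⟨C, hC1, hC2⟩ := TH463.UQ.main (η := 1 / 2) (by norm_num)
  have hC3 := (hC2 p hp μ h1 h3.1 h2).1
  set D : Set ℕ := C ∩ {c | 1 ≤ c} with hD
  have hDinf : D.Infinite := by
    intro hfin
    set K := D.ncard with hK
    have h6 := hC1 (2 * K + 4)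
    have hsub : Set.Iio (2 * K + 4) ⊆ {c : ℕ | c < 2 * K + 4 ∧ c ∉ C} ∪ (D ∪ {0}) := by
      intro c hc
      by_cases hcC : c ∈ C
      · rcases Nat.eq_zero_or_pos c with h0 | h0
        · exact Or.inr (Or.inr h0)
        · exact Or.inr (Or.inl ⟨hcC, h0⟩)
      · exact Or.inl ⟨hc, hcC⟩
    have hf1 : {c : ℕ | c < 2 * K + 4 ∧ c ∉ C}.Finite :=
      (Set.finite_lt_nat (2 * K + 4)).subset fun c hc => hc.1
    have hf2 : (D ∪ {0} : Set ℕ).Finite := hfin.union (Set.finite_singleton 0)
    have h7 := Set.ncard_le_ncard hsub (hf1.union hf2)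
    have h8 := Set.ncard_union_le {c : ℕ | c < 2 * K + 4 ∧ c ∉ C} (D ∪ {0})
    have h9 := Set.ncard_union_le D {0}
    rw [Set.ncard_singleton] at h9
    have h10 : (Set.Iio (2 * K + 4)).ncard = 2 * K + 4 := by
      rw [Set.ncard_eq_toFinset_card']
      simp
    rw [Nat.card_coe_set_eq] at h6
    rw [h10] at h7
    have h11 : 2 * K + 4 ≤ {c : ℕ | c < 2 * K + 4 ∧ c ∉ C}.ncard + (K + 1) := by omega
    have h12 : (2 * (K : ℝ) + 4) ≤ ({c : ℕ | c < 2 * K + 4 ∧ c ∉ C}.ncard : ℝ) + (K + 1) := by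
      exact_mod_cast h11
    push_cast at h6
    linarith
  set F : ℕ → Measure UnitAddCircle := fun c => μ.map fun x => c • x with hF
  have himg : (F '' D).Infinite := by
    intro hfin
    apply hDinf
    have hcov : D ⊆ ⋃ ν ∈ F '' D, (C ∩ {c : ℕ | μ.map (fun x => c • x) = ν}) := by
      intro c hc
      simp only [mem_iUnion]
      exact ⟨F c, ⟨c, hc, rfl⟩, hc.1, rfl⟩
    refine Set.Finite.subset (hfin.biUnion ?_) hcov
    rintro ν ⟨c, hc, rfl⟩
    have hcx := h.map hp hq hc.2
    have hpr := hcx.1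
    exact finite_same hp hq h hC3 hcx.2.2.2.2
  set g := himg.natEmbedding with hg
  have hex : ∀ k : ℕ, ∃ c ∈ D, F c = g k := fun k => (g k).2
  choose c hcD hc using hex
  have hinj : Function.Injective c := by
    intro i j hij
    apply g.injective
    apply Subtype.ext
    rw [← hc i, ← hc j, hij]
  refine ⟨c, hinj.nat_tendsto_atTop, fun k => (hcD k).2, ?_, ?_⟩
  · intro i j hij
    have hi := h.map hp hq (hcD i).2
    have hj := h.map hp hq (hcD j).2
    have hi1 := hi.1
    have hj1 := hj.1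
    rcases eq_or_sing hi.2.2.1 hj.2.2.1 hi.2.2.2.1 hj.2.2.2.1 with h6 | h6
    · exfalso
      apply hij
      apply g.injective
      apply Subtype.ext
      rw [← hc i, ← hc j]
      exact h6
    · exact h6
  · intro f
    have h6 : Tendsto c atTop (atTop ⊓ 𝓟 C) :=
      tendsto_inf.2 ⟨hinj.nat_tendsto_atTop, tendsto_principal.2
        (Eventually.of_forall fun k => (hcD k).1)⟩
    refine ((hC3 f).comp h6).congr fun k => ?_
    simp only [Function.comp]
    rw [integral_map (meas_smul _).aemeasurable f.continuous.aestronglyMeasurable]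

end Pool.Agent.X170.Img
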